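import Pool.Agent.Y346.SG.Stm
import Pool.Agent.W465.PQ.PQGS

/-!
# Project SG: summability over the integers without exact prime divisors
-/

set_option autoImplicit false

namespace Pool.Agent.Y65.SG

open Finset Pool.Agent.Y346.SG Pool.Agent.W114.PQ
open Pool.Agent.H951R4.OD (ch PI Ex)

lemma term_le (g : ℕ) (hg : 1 ≤ g) :
    (g : ℝ) ^ (-(5 / 6) : ℝ) ≤ (2 : ℝ) ^ ((Nat.log 2 g + 1 : ℝ) / 6) * (1 / g) := by
  have hg0 : (0 : ℝ) < g := by exact_mod_cast hg
  have h1 : (g : ℝ) ≤ (2 : ℝ) ^ ((Nat.log 2 g + 1 : ℕ) : ℝ) := by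
    rw [Real.rpow_natCast]
    exact_mod_cast (Nat.lt_pow_succ_log_self (by norm_num) g).le
  have h2 : (g : ℝ) ^ (1 / 6 : ℝ) ≤ (2 : ℝ) ^ ((Nat.log 2 g + 1 : ℝ) / 6) := by
    have h3 := Real.rpow_le_rpow hg0.le h1 (show (0 : ℝ) ≤ 1 / 6 by norm_num)
    rw [← Real.rpow_mul (by norm_num)] at h3
    refine h3.trans (le_of_eq ?_)
    congr 1
    push_cast
    ring
  have h4 : (g : ℝ) ^ (-(5 / 6) : ℝ) = (g : ℝ) ^ (1 / 6 : ℝ) * (1 / g) := by
    rw [one_div (g : ℝ), ← Real.rpow_neg_one, ← Real.rpow_add hg0]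
    congr 1
    norm_num
  rw [h4]
  exact mul_le_mul_of_nonneg_right h2 (by positivity)

theorem g56 : S_G56 := by
  classical
  intro c0 hc0
  obtain ⟨C, hC1, hC⟩ := Pool.Agent.W465.PQ.GS.gs c0 hc0
  obtain ⟨r, hr⟩ : ∃ r : ℝ, r = (2 : ℝ) ^ (-(1 / 6) : ℝ) := ⟨_, rfl⟩
  have hr0 : 0 < r := by rw [hr]; positivity
  have hr1 : r < 1 := by
    rw [hr]
    exact Real.rpow_lt_one_of_one_lt_of_neg (by norm_num) (by norm_num)
  have hgeo : Summable (fun j : ℕ => r ^ j) := summable_geometric_of_lt_one hr0.le hr1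
  obtain ⟨D, hD⟩ : ∃ D : ℝ, D = (2 : ℝ) ^ (1 / 6 : ℝ) * C := ⟨_, rfl⟩
  have hD0 : 0 ≤ D := by rw [hD]; positivity
  apply summable_of_sum_le (c := D * ∑' j : ℕ, r ^ j)
  · intro g
    dsimp only
    split_ifs
    · positivity
    · exact le_rfl
  · intro S
    obtain ⟨J, hJ⟩ : ∃ J : ℕ, ∀ g ∈ S, Nat.log 2 g < J := by
      refine ⟨S.sup (fun g => Nat.log 2 g) + 1, fun g hg => ?_⟩
      exact Nat.lt_succ_of_le (Finset.le_sup (f := fun g => Nat.log 2 g) hg)
    have h1 : ∑ g ∈ S, (if NE c0 g then (g : ℝ) ^ (-(5 / 6) : ℝ) else 0) =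
        ∑ j ∈ range J, ∑ g ∈ S with Nat.log 2 g = j,
          (if NE c0 g then (g : ℝ) ^ (-(5 / 6) : ℝ) else 0) :=
      (Finset.sum_fiberwise_of_maps_to (fun g hg => mem_range.2 (hJ g hg)) _).symm
    rw [h1]
    have h2 : ∀ j ∈ range J, (∑ g ∈ S with Nat.log 2 g = j,
        (if NE c0 g then (g : ℝ) ^ (-(5 / 6) : ℝ) else 0)) ≤ D * r ^ j := by
      intro j _
      rw [← Finset.sum_filter]
      have h3 : ∀ g ∈ ((S.filter fun g => Nat.log 2 g = j).filter fun g => NE c0 g),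
          (g : ℝ) ^ (-(5 / 6) : ℝ) ≤ (2 : ℝ) ^ ((j + 1 : ℝ) / 6) * (1 / g) := by
        intro g hg
        rw [mem_filter, mem_filter] at hg
        have h4 := term_le g hg.2.1
        rw [hg.1.2] at h4
        exact h4
      refine (Finset.sum_le_sum h3).trans ?_
      rw [← Finset.mul_sum]
      have h5 := hC ((2 : ℝ) ^ j) ((S.filter fun g => Nat.log 2 g = j).filter fun g => NE c0 g)
        (one_le_pow₀ (by norm_num)) (by
          intro g hg
          rw [mem_filter, mem_filter] at hg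
          refine ⟨?_, hg.2.2⟩
          have h6 : 2 ^ Nat.log 2 g ≤ g := Nat.pow_log_le_self 2 (by have := hg.2.1; omega)
          rw [hg.1.2] at h6
          exact_mod_cast h6)
      refine (mul_le_mul_of_nonneg_left h5 (by positivity)).trans (le_of_eq ?_)
      have e1 : ((2 : ℝ) ^ j) ^ (-(1 / 3) : ℝ) = (2 : ℝ) ^ (-((j : ℝ) / 3)) := by
        rw [← Real.rpow_natCast, ← Real.rpow_mul (by norm_num)]
        congr 1
        ring
      have e2 : r ^ j = (2 : ℝ) ^ (-((j : ℝ) / 6)) := by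
        rw [hr, ← Real.rpow_natCast, ← Real.rpow_mul (by norm_num)]
        congr 1
        ring
      rw [e1, e2, hD]
      have e3 : (2 : ℝ) ^ ((j + 1 : ℝ) / 6) * (2 : ℝ) ^ (-((j : ℝ) / 3)) =
          (2 : ℝ) ^ (1 / 6 : ℝ) * (2 : ℝ) ^ (-((j : ℝ) / 6)) := by
        rw [← Real.rpow_add (by norm_num), ← Real.rpow_add (by norm_num)]
        congr 1
        ring
      linear_combination C * e3
    refine (Finset.sum_le_sum h2).trans ?_
    rw [← Finset.mul_sum]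
    exact mul_le_mul_of_nonneg_left (hgeo.sum_le_tsum _ (fun _ _ => by positivity)) hD0

end Pool.Agent.Y65.SG
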